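import Pool.Agent.H.MP_8790d8_co.F

set_option autoImplicit false
open Filter Topology Asymptotics Pool.Agent.H.MP_35cd17_co Pool.Agent.H.MP_8790d8_co

namespace Pool.Agent.Results.MP_8790d8_co.Exists

/-- `ex(n,e,G)`: largest number of unlabelled copies of `G` in a graph on `n` vertices with at most
`e` edges. -/
noncomputable def ex {V : Type} (n e : ℕ) (G : SimpleGraph V) : ℕ :=
  sSup {k | ∃ H : SimpleGraph (Fin n), H.edgeSet.ncard ≤ e ∧ k = H.copyCount G}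

/-- The edge budget `⌊β n² / 2⌋`. -/
noncomputable def eb (β : ℝ) (n : ℕ) : ℕ := ⌊β * (n : ℝ) ^ 2 / 2⌋₊

/-- Asymptotic maximiser for `G` at density `β`. -/
def AsympMax {V : Type} (G : SimpleGraph V) (β : ℝ) (H : ∀ n : ℕ, SimpleGraph (Fin n)) : Prop :=
  ((fun n : ℕ => 2 * ((H n).edgeSet.ncard : ℝ) / (n : ℝ) ^ 2 - β) =O[atTop]
    fun n : ℕ => 1 / (n : ℝ)) ∧
  ∃ o : ℕ → ℝ, Tendsto o atTop (𝓝 0) ∧
    ∀ᶠ n in atTop, ((H n).copyCount G : ℝ) = (1 + o n) * ex n (eb β n) G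

/-- The `a` with `e = C(a,2) + b`, `0 ≤ b < a`. -/
noncomputable def ca (e : ℕ) : ℕ := sSup {a : ℕ | a.choose 2 ≤ e}

/-- Quasi-clique: a clique on the vertices `< a`, vertex `a` joined to the vertices `< b`. -/
noncomputable def QK (n e : ℕ) : SimpleGraph (Fin n) :=
  SimpleGraph.fromRel fun i j =>
    (i.val < ca e ∧ j.val < ca e) ∨ (i.val = ca e ∧ j.val < e - (ca e).choose 2)

/-- Quasi-star. -/
noncomputable def QS (n e : ℕ) : SimpleGraph (Fin n) := (QK n (n.choose 2 - e))ᶜ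

/-- `R = {i < a}`, `Y = {a ≤ i < b}`, `B = {b ≤ i}`: `R` is joined to everything, `Y` is a clique. -/
def TT (n a b : ℕ) : SimpleGraph (Fin n) :=
  SimpleGraph.fromRel fun i j => i.val < a ∨ (i.val < b ∧ j.val < b)

/-- `T_n^e(q)` at density `β`. -/
noncomputable def TG (n : ℕ) (β q : ℝ) : SimpleGraph (Fin n) :=
  TT n ⌊(1 - √(1 - β * (1 - q ^ 2))) * n⌋₊ ⌊(1 - √(1 - β * (1 - q ^ 2)) + √β * q) * n⌋₊

/-- Type STK. -/
def TypeSTK {V : Type} (G : SimpleGraph V) : Prop :=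
  ∃ γ δ : ℝ, 0 < γ ∧ γ < δ ∧ δ < 1 ∧
    (∀ β ∈ Set.Icc 0 γ, AsympMax G β fun n => QS n (eb β n)) ∧
    (∀ β ∈ Set.Icc γ δ, ∃ t ∈ Set.Ioo (0 : ℝ) 1, AsympMax G β fun n => TG n β t) ∧
    (∀ β ∈ Set.Icc δ 1, AsympMax G β fun n => QK n (eb β n)) ∧
    ∀ β ∈ Set.Ioo γ δ, ¬ AsympMax G β (fun n => QS n (eb β n)) ∧
      ¬ AsympMax G β fun n => QK n (eb β n)

noncomputable def nz (k n : ℕ) : ℝ := (k : ℝ) * Nat.card (G0 ≃g G0) / (n : ℝ) ^ Fintype.card V0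

theorem inv0 (c : ℝ) : Tendsto (fun n : ℕ => c * (1 / (n : ℝ))) atTop (𝓝 0) := by
  simpa using tendsto_one_div_atTop_nhds_zero_nat.const_mul c

theorem lim (H : ∀ n : ℕ, SimpleGraph (Fin n)) (t : ℕ → ℝ) (τ : ℝ)
    (h1 : ∀ (n : ℕ) [Nonempty (Fin n)], |tt G0 (H n).Adj Finset.univ (fun _ => mu (Fin n)) - t n| ≤
      (Fintype.card V0 : ℝ) ^ 2 * (3 * (1 / n))) (h2 : Tendsto t atTop (𝓝 τ)) :
    Tendsto (fun n => nz ((H n).copyCount G0) n) atTop (𝓝 τ) := by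
  refine h2.congr_dist (squeeze_zero' (Eventually.of_forall fun _ => dist_nonneg) ?_
    (inv0 ((Fintype.card V0 : ℝ) ^ 2 * 4)))
  filter_upwards [eventually_gt_atTop 0] with n hn
  haveI : Nonempty (Fin n) := ⟨⟨0, hn⟩⟩
  have a := abs_le.mp (h1 n)
  have b := abs_le.mp (count_close G0 (H n))
  rw [Real.dist_eq, abs_le]
  unfold nz
  constructor <;> linarith [a.1, a.2, b.1, b.2]

theorem bigO (H : ∀ n : ℕ, SimpleGraph (Fin n)) (β : ℝ)
    (h : ∀ (n : ℕ) [Nonempty (Fin n)], |ee (H n).Adj (fun _ => mu (Fin n)) - β| ≤ 7 * (1 / n)) :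
    (fun n : ℕ => 2 * ((H n).edgeSet.ncard : ℝ) / (n : ℝ) ^ 2 - β) =O[atTop]
      fun n : ℕ => 1 / (n : ℝ) := by
  refine IsBigO.of_bound 7 ?_
  filter_upwards [eventually_gt_atTop 0] with n hn
  haveI : Nonempty (Fin n) := ⟨⟨0, hn⟩⟩
  rw [ee_graph, Real.norm_eq_abs, Real.norm_eq_abs, abs_of_nonneg (a := 1 / (n : ℝ)) (by positivity)]
  exact h n

theorem Plim {a b : ℕ → ℝ} {r M : ℝ} (ha : Tendsto a atTop (𝓝 r)) (hb : Tendsto b atTop (𝓝 M)) :
    Tendsto (fun n => P (a n) (b n)) atTop (𝓝 (P r M)) :=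
  Tendsto.comp (g := fun z : ℝ × ℝ => P z.1 z.2) (f := fun n => (a n, b n))
    (P_cont.tendsto (r, M)) (ha.prodMk_nhds hb)

theorem TT_adj (n a b : ℕ) (hab : a ≤ b) (x y : Fin n) :
    (TT n a b).Adj x y ↔ x ≠ y ∧ A3 (cl n a b x) (cl n a b y) := by
  unfold TT A3 A4 cl
  rw [SimpleGraph.fromRel_adj]
  refine and_congr_right fun _ => ?_
  split_ifs <;> simp <;> omega

theorem Tfam {β r M : ℝ} (h : Adm β r M) :
    (∀ (n : ℕ) [Nonempty (Fin n)],
      ee (TT n ⌊r * n⌋₊ ⌊M * n⌋₊).Adj (fun _ => mu (Fin n)) ≤ β ∧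
      |ee (TT n ⌊r * n⌋₊ ⌊M * n⌋₊).Adj (fun _ => mu (Fin n)) - β| ≤ 7 * (1 / n)) ∧
    Tendsto (fun n => nz ((TT n ⌊r * n⌋₊ ⌊M * n⌋₊).copyCount G0) n) atTop (𝓝 (P r M)) := by
  obtain ⟨h1, h2, h3, h4⟩ := h
  have ab : ∀ n : ℕ, ⌊r * n⌋₊ ≤ ⌊M * n⌋₊ := fun n =>
    Nat.floor_le_floor (mul_le_mul_of_nonneg_right h2 (Nat.cast_nonneg _))
  have bn : ∀ n : ℕ, ⌊M * n⌋₊ ≤ n := fun n =>
    Nat.floor_le_of_le (mul_le_of_le_one_left (Nat.cast_nonneg _) h3)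
  have cc := fun (n : ℕ) [Nonempty (Fin n)] => col_close G0 A3 n _ _ 0 (ab n) (bn n)
    (TT n ⌊r * n⌋₊ ⌊M * n⌋₊) fun x y hxy _ _ => by rw [TT_adj _ _ _ (ab n), and_iff_right hxy]
  constructor
  · intro n _
    have hn : (0 : ℝ) < n := by
      have : 0 < n := Fin.pos_iff_nonempty.mpr inferInstance
      exact_mod_cast this
    have c1 := abs_le.mp (cc n).1
    have c2 := col_le A3 n _ _ (ab n) (bn n) (TT n ⌊r * n⌋₊ ⌊M * n⌋₊)
      fun x y hxy => ((TT_adj _ _ _ (ab n) x y).mp hxy).2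
    rw [ee3] at c1 c2
    simp only [Matrix.cons_val_zero, Matrix.cons_val_one, Matrix.cons_val] at c1 c2
    have fl : ∀ x : ℝ, 0 ≤ x → (⌊x * n⌋₊ : ℝ) / n ≤ x ∧ x - 1 / n ≤ (⌊x * n⌋₊ : ℝ) / n :=
      fun x hx => ⟨by
        rw [div_le_iff₀ hn]; exact Nat.floor_le (by positivity), by
        rw [le_div_iff₀ hn, sub_mul, one_div_mul_cancel hn.ne']
        linarith [Nat.lt_floor_add_one (x * n)]⟩
    have f1 := fl r h1
    have f2 := fl M (h1.trans h2)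
    have f3 : (⌊r * n⌋₊ : ℝ) / n ≤ (⌊M * n⌋₊ : ℝ) / n :=
      div_le_div_of_nonneg_right (by exact_mod_cast ab n) hn.le
    have f4 : 0 ≤ (⌊r * n⌋₊ : ℝ) / n := by positivity
    have f5 : 0 < 1 / (n : ℝ) := by positivity
    generalize (⌊r * n⌋₊ : ℝ) / n = α at *
    generalize (⌊M * n⌋₊ : ℝ) / n = μ at *
    generalize 1 / (n : ℝ) = η at *
    have p1 := mul_nonneg (sub_nonneg.mpr f2.1) (show 0 ≤ M + μ - 2 * α by linarith)
    have p2 := mul_nonneg (sub_nonneg.mpr f1.1) (sub_nonneg.mpr h3)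
    have p3 := mul_nonneg (sub_nonneg.mpr f2.1) (show 0 ≤ 2 - (M + μ - 2 * α) by linarith)
    have p4 := mul_nonneg (sub_nonneg.mpr f1.1) (h1.trans h2)
    rw [abs_le]
    refine ⟨by linarith, by linarith, by linarith⟩
  · refine lim _ (fun n => P ((⌊r * n⌋₊ : ℝ) / n) ((⌊M * n⌋₊ : ℝ) / n)) _ (fun n _ => ?_) ?_
    · have := (cc n).2
      rwa [tt0] at this
    · exact Plim ((tendsto_nat_floor_mul_div_atTop h1).comp tendsto_natCast_atTop_atTop)
        ((tendsto_nat_floor_mul_div_atTop (h1.trans h2)).comp tendsto_natCast_atTop_atTop)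

theorem ex_spec {V : Type} (n e : ℕ) (G : SimpleGraph V) :
    (∃ H : SimpleGraph (Fin n), H.edgeSet.ncard ≤ e ∧ ex n e G = H.copyCount G) ∧
    ∀ H : SimpleGraph (Fin n), H.edgeSet.ncard ≤ e → H.copyCount G ≤ ex n e G := by
  have hb : BddAbove {k | ∃ H : SimpleGraph (Fin n), H.edgeSet.ncard ≤ e ∧ k = H.copyCount G} :=
    Set.Finite.bddAbove ((Set.finite_range fun H : SimpleGraph (Fin n) => H.copyCount G).subset
      (by rintro k ⟨H, _, h⟩; exact ⟨H, h.symm⟩))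
  have hn : Set.Nonempty
      {k | ∃ H : SimpleGraph (Fin n), H.edgeSet.ncard ≤ e ∧ k = H.copyCount G} :=
    ⟨_, ⊥, by simp, rfl⟩
  exact ⟨Nat.sSup_mem hn hb, fun H h => le_csSup hb ⟨H, h, rfl⟩⟩

theorem budget {β : ℝ} (b0 : 0 ≤ β) (n : ℕ) [Nonempty (Fin n)] (H : SimpleGraph (Fin n)) :
    H.edgeSet.ncard ≤ eb β n ↔ ee H.Adj (fun _ => mu (Fin n)) ≤ β := by
  have hn : (0 : ℝ) < n := by
    have : 0 < n := Fin.pos_iff_nonempty.mpr inferInstance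
    exact_mod_cast this
  unfold eb
  rw [Nat.le_floor_iff (by positivity), ← ee_graph, div_le_iff₀ (by positivity)]
  constructor <;> intro h <;> linarith

theorem ex_lim {β r M : ℝ} (b0 : 0 < β) (h : Adm β r M) (hm : ∀ r' M', Adm β r' M' → P r' M' ≤ P r M) :
    Tendsto (fun n => nz (ex n (eb β n) G0) n) atTop (𝓝 (P r M)) := by
  have t2 := (inv0 ((Fintype.card V0 : ℝ) ^ 2)).const_add (P r M)
  rw [add_zero] at t2
  refine tendsto_of_tendsto_of_tendsto_of_le_of_le' (Tfam h).2 t2 ?_ ?_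
  · filter_upwards [eventually_gt_atTop 0] with n hn
    haveI : Nonempty (Fin n) := ⟨⟨0, hn⟩⟩
    have := (ex_spec n (eb β n) G0).2 _ ((budget b0.le n _).mpr ((Tfam h).1 n).1)
    unfold nz
    gcongr
  · filter_upwards [eventually_gt_atTop 0] with n hn
    haveI : Nonempty (Fin n) := ⟨⟨0, hn⟩⟩
    obtain ⟨H, h1, h2⟩ := (ex_spec n (eb β n) G0).1
    have a := upper0 b0 (adm_le h).2 hm n H.Adj (fun _ _ h => h.symm) ((budget b0.le n _).mp h1)
    have b := abs_le.mp (count_close G0 H)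
    rw [h2]
    unfold nz
    linarith [b.2]

theorem am {β : ℝ} (b0 : 0 < β) (b1 : β ≤ 1) (H : ∀ n : ℕ, SimpleGraph (Fin n)) (t : ℝ)
    (ht : t ∈ Set.Icc (0 : ℝ) 1)
    (h : ∀ (n : ℕ) [Nonempty (Fin n)], |ee (H n).Adj (fun _ => mu (Fin n)) - β| ≤ 7 * (1 / n))
    (h2 : Tendsto (fun n => nz ((H n).copyCount G0) n) atTop (𝓝 (ff β t))) :
    AsympMax G0 β H ↔ ∀ q ∈ Set.Icc (0 : ℝ) 1, ff β q ≤ ff β t := by
  have j : β ∈ Set.Icc (0 : ℝ) 1 := ⟨b0.le, b1⟩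
  obtain ⟨s, hs, hm⟩ := isCompact_Icc.exists_isMaxOn (s := Set.Icc (0 : ℝ) 1) (f := ff β)
    ⟨0, le_rfl, zero_le_one⟩ (ff_cont.comp (f := fun q : ℝ => (β, q)) (by fun_prop)).continuousOn
  have l : Tendsto (fun n => nz (ex n (eb β n) G0) n) atTop (𝓝 (ff β s)) :=
    ex_lim b0 (adm_q j hs) ((iff_adm j _).mp fun q hq => hm hq)
  have m0 : 0 < ff β s := by
    refine lt_of_lt_of_le ?_ (hm (a := 1) ⟨zero_le_one, le_rfl⟩)
    rw [ff1]
    exact pow_pos (Real.sqrt_pos.mpr b0) _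
  constructor
  · rintro ⟨_, o, o1, o2⟩ q hq
    have l2 := (o1.const_add 1).mul l
    rw [add_zero, one_mul] at l2
    rw [tendsto_nhds_unique h2 (l2.congr' ?_)]
    · exact hm hq
    · filter_upwards [o2] with n hn
      unfold nz
      rw [hn]; ring
  · intro hq
    have e : ff β t = ff β s := le_antisymm (hm ht) (hq s hs)
    rw [e] at h2
    refine ⟨bigO H β h, fun n => nz ((H n).copyCount G0) n / nz (ex n (eb β n) G0) n - 1, ?_, ?_⟩
    · have := (h2.div l m0.ne').sub_const 1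
      rwa [div_self m0.ne', sub_self] at this
    · filter_upwards [l.eventually_ne m0.ne'] with n hn
      unfold nz at *
      have a1 := (div_ne_zero_iff.mp hn).2
      have a2 := (mul_ne_zero_iff.mp (div_ne_zero_iff.mp hn).1)
      have a3 := a2.1
      have a4 := a2.2
      field_simp
      ring

theorem ca_spec (e : ℕ) : (ca e).choose 2 ≤ e ∧ ∀ a, a.choose 2 ≤ e → a ≤ ca e := by
  have hb : BddAbove {a : ℕ | a.choose 2 ≤ e} := ⟨2 * e + 2, fun a ha => by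
    have h : a.choose 2 ≤ e := ha
    have h2 : (a.choose 2 : ℝ) ≤ e := by exact_mod_cast h
    rw [Nat.cast_choose_two] at h2
    by_contra hc
    have : ((2 * e + 2 : ℕ) : ℝ) < a := by exact_mod_cast not_le.mp hc
    push_cast at this
    nlinarith [Nat.cast_nonneg (α := ℝ) e]⟩
  exact ⟨Nat.sSup_mem ⟨0, by simp⟩ hb, fun a h => le_csSup hb h⟩

theorem clq (e : ℕ → ℕ) (b : ℝ)
    (h : ∀ n : ℕ, 0 < n → |2 * (e n : ℝ) - b * (n : ℝ) ^ 2| ≤ 3 * (n : ℝ) ∧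
      2 * (e n : ℝ) ≤ (n : ℝ) ^ 2) :
    (∀ n : ℕ, 0 < n → ca (e n) ≤ n ∧ |((ca (e n) : ℝ) / n) ^ 2 - b| ≤ 4 * (1 / (n : ℝ))) ∧
    Tendsto (fun n => (ca (e n) : ℝ) / n) atTop (𝓝 √b) := by
  have k : ∀ n : ℕ, 0 < n → ca (e n) ≤ n ∧ |((ca (e n) : ℝ) / n) ^ 2 - b| ≤ 4 * (1 / (n : ℝ)) := by
    intro n hn
    have n0 : (0 : ℝ) < n := by exact_mod_cast hn
    obtain ⟨h1, h2⟩ := h n hn
    have a1 : ((ca (e n)).choose 2 : ℝ) ≤ e n := by exact_mod_cast (ca_spec (e n)).1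
    have a2 : (e n : ℝ) < (ca (e n) + 1).choose 2 := by
      have : ¬ (ca (e n) + 1).choose 2 ≤ e n := fun hc => by
        have := (ca_spec (e n)).2 _ hc
        omega
      exact_mod_cast not_le.mp this
    rw [Nat.cast_choose_two] at a1 a2
    push_cast at a2
    have a3 : ca (e n) ≤ n := by
      by_contra hc
      have : ((n + 1 : ℕ) : ℝ) ≤ ca (e n) := by exact_mod_cast not_le.mp hc
      push_cast at this
      nlinarith
    have a4 : (ca (e n) : ℝ) ≤ n := by exact_mod_cast a3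
    refine ⟨a3, ?_⟩
    rw [show ((ca (e n) : ℝ) / n) ^ 2 - b = ((ca (e n) : ℝ) ^ 2 - b * n ^ 2) / n ^ 2 by field_simp,
      abs_div, abs_of_pos (pow_pos n0 2), div_le_iff₀ (pow_pos n0 2),
      show 4 * (1 / (n : ℝ)) * n ^ 2 = 4 * n by field_simp, abs_le]
    have := abs_le.mp h1
    constructor <;> linarith [this.1, this.2]
  refine ⟨k, ?_⟩
  have t : Tendsto (fun n => ((ca (e n) : ℝ) / n) ^ 2) atTop (𝓝 b) := by
    refine tendsto_const_nhds.congr_dist (squeeze_zero'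
      (Eventually.of_forall fun _ => dist_nonneg) ?_ (inv0 4))
    filter_upwards [eventually_gt_atTop 0] with n hn
    rw [dist_comm, Real.dist_eq]
    exact (k n hn).2
  refine t.sqrt.congr fun n => Real.sqrt_sq (by positivity)

theorem eb_spec {β : ℝ} (b0 : 0 ≤ β) (n : ℕ) :
    2 * (eb β n : ℝ) ≤ β * n ^ 2 ∧ β * n ^ 2 ≤ 2 * (eb β n : ℝ) + 2 := by
  have a := Nat.floor_le (show 0 ≤ β * (n : ℝ) ^ 2 / 2 by positivity)
  have b := Nat.lt_floor_add_one (β * (n : ℝ) ^ 2 / 2)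
  unfold eb
  constructor <;> linarith

theorem QK_adj (n e : ℕ) (x y : Fin n) (h : x ≠ y) (hx : x.val ≠ ca e) (hy : y.val ≠ ca e) :
    (QK n e).Adj x y ↔ x.val < ca e ∧ y.val < ca e := by
  unfold QK
  rw [SimpleGraph.fromRel_adj, and_iff_right h]
  omega

theorem Kfam {β : ℝ} (b0 : 0 ≤ β) (b1 : β ≤ 1) :
    (∀ (n : ℕ) [Nonempty (Fin n)],
      |ee (QK n (eb β n)).Adj (fun _ => mu (Fin n)) - β| ≤ 7 * (1 / n)) ∧
    Tendsto (fun n => nz ((QK n (eb β n)).copyCount G0) n) atTop (𝓝 (ff β 1)) := by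
  obtain ⟨k1, k2⟩ := clq (eb β) β fun n hn => by
    have n1 : (1 : ℝ) ≤ n := by exact_mod_cast hn
    have a := eb_spec b0 n
    have b := mul_le_mul_of_nonneg_right b1 (sq_nonneg (n : ℝ))
    rw [abs_le]
    refine ⟨⟨?_, ?_⟩, ?_⟩ <;> linarith [a.1, a.2]
  have cc := fun (n : ℕ) [i : Nonempty (Fin n)] => col_close G0 A3 n 0 _ (ca (eb β n))
    (Nat.zero_le _) (k1 n (Fin.pos_iff_nonempty.mpr i)).1 (QK n (eb β n)) fun x y hxy hx hy => by
      rw [QK_adj _ _ _ _ hxy hx hy]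
      unfold A3 A4 cl
      split_ifs <;> simp <;> omega
  constructor
  · intro n i
    have c1 := abs_le.mp (cc n).1
    have c2 := abs_le.mp (k1 n (Fin.pos_iff_nonempty.mpr i)).2
    rw [ee3] at c1
    simp only [Matrix.cons_val_zero, Matrix.cons_val_one, Matrix.cons_val, Nat.cast_zero, zero_div,
      sub_zero, zero_add, mul_zero, zero_mul, add_zero] at c1
    rw [abs_le]
    constructor <;> linarith [c1.1, c1.2, c2.1, c2.2]
  · refine lim _ (fun n => ((ca (eb β n) : ℝ) / n) ^ 23) _ (fun n _ => ?_) ?_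
    · have := (cc n).2
      rwa [tt0, Nat.cast_zero, zero_div, P0] at this
    · rw [ff1]
      exact k2.pow 23

theorem Sfam {β : ℝ} (b0 : 0 ≤ β) (b1 : β ≤ 1) :
    (∀ (n : ℕ) [Nonempty (Fin n)],
      |ee (QS n (eb β n)).Adj (fun _ => mu (Fin n)) - β| ≤ 7 * (1 / n)) ∧
    Tendsto (fun n => nz ((QS n (eb β n)).copyCount G0) n) atTop (𝓝 (ff β 0)) := by
  obtain ⟨k1, k2⟩ := clq (fun n => n.choose 2 - eb β n) (1 - β) fun n hn => by
    have n1 : (1 : ℝ) ≤ n := by exact_mod_cast hn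
    have a := eb_spec b0 n
    have b := mul_le_mul_of_nonneg_right b1 (sq_nonneg (n : ℝ))
    have c : (0 : ℝ) ≤ eb β n := Nat.cast_nonneg _
    rw [abs_le]
    rcases le_total (eb β n) (n.choose 2) with h | h
    · rw [Nat.cast_sub h, Nat.cast_choose_two]
      refine ⟨⟨?_, ?_⟩, ?_⟩ <;> linarith [a.1, a.2]
    · have d : (n.choose 2 : ℝ) ≤ eb β n := by exact_mod_cast h
      rw [Nat.cast_choose_two] at d
      rw [Nat.sub_eq_zero_of_le h, Nat.cast_zero]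
      refine ⟨⟨?_, ?_⟩, ?_⟩ <;> nlinarith [a.1, a.2]
  have cc := fun (n : ℕ) [i : Nonempty (Fin n)] => col_close G0 (fun a b => A3 a.rev b.rev) n _ _
    (ca (n.choose 2 - eb β n)) le_rfl (k1 n (Fin.pos_iff_nonempty.mpr i)).1 (QS n (eb β n))
    fun x y hxy hx hy => by
      unfold QS
      rw [SimpleGraph.compl_adj, and_iff_right hxy, QK_adj _ _ _ _ hxy hx hy]
      unfold A3 A4 cl
      split_ifs <;> simp <;> omega
  have hw : ∀ x : ℝ, ∀ y : Fin 3, (![1 - x, 1 - x - (1 - x), 1 - (1 - x)] : Fin 3 → ℝ) y =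
      ∑ z : Fin 3, if z.rev = y then (![x, x - x, 1 - x] : Fin 3 → ℝ) z else 0 := fun x y => by
    rw [Finset.sum_eq_single y.rev (fun z _ h => if_neg fun h' => h (by rw [← h', Fin.rev_rev]))
      (fun h => absurd (Finset.mem_univ _) h), if_pos (Fin.rev_rev y)]
    fin_cases y
    · rfl
    · show 1 - x - (1 - x) = x - x
      ring
    · show 1 - (1 - x) = x
      ring
  constructor
  · intro n i
    have c1 := (cc n).1
    have c2 := abs_le.mp (k1 n (Fin.pos_iff_nonempty.mpr i)).2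
    rw [push_ee A3 Fin.rev _ _ (hw _), ee3, abs_le] at c1
    simp only [Matrix.cons_val_zero, Matrix.cons_val_one, Matrix.cons_val] at c1
    rw [abs_le]
    constructor <;> linarith [c1.1, c1.2, c2.1, c2.2]
  · refine lim _ (fun n => P (1 - (ca (n.choose 2 - eb β n) : ℝ) / n)
      (1 - (ca (n.choose 2 - eb β n) : ℝ) / n)) _ (fun n _ => ?_) ?_
    · have := (cc n).2
      rwa [push_tt G0 A3 Fin.rev _ _ (hw _), tt0] at this
    · rw [ff0]
      exact Plim (k2.const_sub 1) (k2.const_sub 1)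

theorem Szero : AsympMax G0 0 fun n => QS n (eb 0 n) := by
  refine ⟨bigO _ 0 (Sfam le_rfl zero_le_one).1, 0, tendsto_const_nhds,
    Eventually.of_forall fun n => ?_⟩
  have e : eb 0 n = 0 := by simp [eb]
  obtain ⟨H, h1, h2⟩ := (ex_spec n 0 G0).1
  have a : H = ⊥ := by
    rw [← SimpleGraph.edgeSet_eq_empty]
    exact (Set.ncard_eq_zero (Set.toFinite _)).mp (Nat.le_zero.mp h1)
  have b : QS n 0 = ⊥ := by
    have c := (ca_spec (n.choose 2 - 0)).2 n (by simp)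
    ext x y
    unfold QS QK
    rw [SimpleGraph.compl_adj, SimpleGraph.fromRel_adj]
    have := x.2
    have := y.2
    exact ⟨fun h => h.2 ⟨h.1, Or.inl (Or.inl ⟨by omega, by omega⟩)⟩, False.elim⟩
  simp only [e, h2, a, b, Pi.zero_apply, add_zero, one_mul]

/-- The disjoint union of `K_{2,5}` and `K_{8,8}` has type STK. -/
theorem result : TypeSTK ((completeBipartiteGraph (Fin 2) (Fin 5)).sum
    (completeBipartiteGraph (Fin 8) (Fin 8))) := by
  obtain ⟨γ, δ, o1, o2, o3, h1, h2, h3, h4⟩ := phases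
  have aS := fun (β : ℝ) (b0 : 0 < β) (b1 : β ≤ 1) => am b0 b1 _ 0 ⟨le_rfl, zero_le_one⟩
    (Sfam b0.le b1).1 (Sfam b0.le b1).2
  have aK := fun (β : ℝ) (b0 : 0 < β) (b1 : β ≤ 1) => am b0 b1 _ 1 ⟨zero_le_one, le_rfl⟩
    (Kfam b0.le b1).1 (Kfam b0.le b1).2
  refine ⟨γ, δ, o1, o2, o3, fun β hβ => ?_, fun β hβ => ?_, fun β hβ => ?_, fun β hβ => ?_⟩
  · rcases eq_or_lt_of_le hβ.1 with h | h
    · rw [← h]; exact Szero
    · exact (aS β h (by linarith [hβ.2])).mpr (h1 β hβ)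
  · obtain ⟨t, ht, hq⟩ := h2 β hβ
    have b0 : 0 < β := by linarith [hβ.1]
    have b1 : β ≤ 1 := by linarith [hβ.2]
    have T := Tfam (adm_q ⟨b0.le, b1⟩ ⟨ht.1.le, ht.2.le⟩)
    exact ⟨t, ht, (am b0 b1 _ t ⟨ht.1.le, ht.2.le⟩ (fun n _ => (T.1 n).2) T.2).mpr hq⟩
  · exact (aK β (by linarith [hβ.1]) hβ.2).mpr (h3 β hβ)
  · have b0 : 0 < β := by linarith [hβ.1]
    have b1 : β ≤ 1 := by linarith [hβ.2]
    exact ⟨fun h => (h4 β hβ).1 ((aS β b0 b1).mp h), fun h => (h4 β hβ).2 ((aK β b0 b1).mp h)⟩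

end Pool.Agent.Results.MP_8790d8_co.Exists
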